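import Pool.Agent.W353.SP.NatA

/-! Natural averages over the primes of an extension, for arbitrary bounded functions. -/

set_option autoImplicit false

namespace Pool.Agent.Y798.PS

open Complex Filter Topology NumberField IsDedekindDomain
  Pool.Agent.W401.Cheb Pool.Agent.W540.BE Pool.Agent.W353.L1 Pool.Agent.W353.AT
  Pool.Agent.W353.SP
open Pool.Agent.H341R2 (low chi)
open Pool.Agent.H921R2.TatePole (kerPrime)
open Pool.Agent.W353.NF (fixn fixn_le vx push_fix)
open Pool.Agent.W353.TP (HX push push_abs_le qh qh_abs res)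
open Pool.Agent.W353.PV (chi_one)
open Pool.Agent.W385.TT (PA PA_low PA_HS PA_push YH HS pc)

section
variable {K F : Type} [Field K] [NumberField K] [Field F] [NumberField F] [Algebra K F]

theorem asIdeal_vx_res (p : Nat.Primes) (ψ : 𝓞 F →+* ZMod (p : ℕ)) :
    (vx (⟨p, res K ψ⟩ : HX K)).asIdeal =
      ((kerPrime p ψ).1.1).asIdeal.comap (algebraMap (𝓞 K) (𝓞 F)) := by
  ext z
  rfl

/-- **Averages over the primes of `F` as averages over the primes of `K`.** -/
theorem EN_bc0 (σ : HeightOneSpectrum (𝓞 K) → GK K) (hσ : ∀ v, IsFrob v (σ v))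
    {T : HeightOneSpectrum (𝓞 K) → ℝ} {TF : HeightOneSpectrum (𝓞 F) → ℝ} (hT : Bd T)
    (hTF : Bd TF)
    (h : ∀ (p : Nat.Primes) (ψ : 𝓞 F →+* ZMod (p : ℕ)),
      TF (kerPrime p ψ).1.1 = T (vx ⟨p, res K ψ⟩)) :
    Tendsto (fun Y : ℕ => EN F Y TF - EN K Y (fun v => T v * fixn K F (σ v))) atTop (𝓝 0) := by
  classical
  obtain ⟨B, hbK⟩ := hT
  obtain ⟨B', hbF⟩ := hTF
  have hB0 : 0 ≤ B := by
    obtain ⟨v⟩ := (Pool.Agent.H341R2.sysK K).nonempty
    exact (abs_nonneg _).trans (hbK v)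
  have h1 := PA_low (K := F) TF hbF
  -- over the homomorphisms of `F`
  have e1 : ∀ Y, PA (low fun v : HeightOneSpectrum (𝓞 F) => TF v) Y =
      (∑ x ∈ HS K Y, T (vx x) * push K (qh (1 : 𝓞 F)) x) / pc Y := by
    intro Y
    have h2 := PA_push (K := K) (F := F) ({()} : Finset Unit)
      (fun _ x => T (vx x)) (fun _ => (1 : 𝓞 F)) (fun _ v => TF v)
      (fun _ _ p ψ => h p ψ) Y
    have e2 : (fun v : HeightOneSpectrum (𝓞 F) => ∑ _j ∈ ({()} : Finset Unit),
        TF v * (chi (1 : 𝓞 F) v : ℝ)) = fun v => TF v := by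
      funext v
      rw [Finset.sum_singleton, chi_one, Int.cast_one, mul_one]
    rw [e2] at h2
    rw [h2]
    unfold YH
    congr 1
    refine Finset.sum_congr rfl fun x _ => ?_
    rw [Finset.sum_singleton]
  -- the fixed embeddings
  obtain ⟨S, hS⟩ := push_fix K F
  set f : ℝ := (Module.finrank ℚ F : ℝ) with hf
  have hf0 : 0 ≤ f := by positivity
  have hind : Tendsto (fun Y : ℕ => (∑ x ∈ HS K Y, (if vx x ∈ S then (1 : ℝ) else 0)) / pc Y)
      atTop (𝓝 0) := by
    have hg : Bd (K := K) fun v => if v ∈ S then (1 : ℝ) else 0 := ⟨1, fun v => by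
      simp only
      split_ifs <;> simp⟩
    have h2 := (mnN K).fin _ hg ((Set.Finite.subset S.finite_toSet) fun v hv => by
      by_contra hcon
      apply hv
      exact if_neg hcon)
    have h3 := h2.sub (low_EN hg)
    rw [sub_zero] at h3
    refine h3.congr fun Y => ?_
    ring
  have h4 : Tendsto (fun Y : ℕ => (∑ x ∈ HS K Y, T (vx x) *
      push K (qh (1 : 𝓞 F)) x) / pc Y - (∑ x ∈ HS K Y, T (vx x) *
      fixn K F (σ (vx x))) / pc Y) atTop (𝓝 0) := by
    have h5 := hind.const_mul (B * (2 * f))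
    rw [mul_zero] at h5
    refine squeeze_zero_norm (fun Y => ?_) h5
    have hpc : 0 ≤ pc Y := Pool.Agent.W385.TT.pc_nonneg Y
    rw [← sub_div, ← Finset.sum_sub_distrib, Real.norm_eq_abs, abs_div, abs_of_nonneg hpc,
      ← mul_div_assoc]
    refine div_le_div_of_nonneg_right ?_ hpc
    rw [Finset.mul_sum]
    refine (Finset.abs_sum_le_sum_abs _ _).trans (Finset.sum_le_sum fun x _ => ?_)
    by_cases h : vx x ∈ S
    · rw [if_pos h, mul_one, ← mul_sub, abs_mul]
      have h6 : |push K (qh (1 : 𝓞 F)) x| ≤ f := by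
        have := push_abs_le (K := K) (qh_abs (1 : 𝓞 F)) x
        rwa [mul_one] at this
      have h7 : |(fixn K F (σ (vx x)) : ℝ)| ≤ f := by
        rw [abs_of_nonneg (Nat.cast_nonneg _)]
        exact fixn_le _
      have h8 : |push K (qh (1 : 𝓞 F)) x - (fixn K F (σ (vx x)) : ℝ)| ≤ 2 * f := by
        refine (abs_sub _ _).trans ?_
        linarith
      exact mul_le_mul (hbK _) h8 (abs_nonneg _) hB0
    · rw [hS x h _ (hσ _), sub_self, abs_zero, if_neg h, mul_zero]
  have hbd : Bd fun v => T v * (fixn K F (σ v) : ℝ) :=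
    Bd.mul (f := fun v => T v) (g := fun v => (fixn K F (σ v) : ℝ)) ⟨B, hbK⟩
      (bd_fixn σ)
  have h9 := (h1.add h4).sub (low_EN hbd)
  simp only [add_zero, sub_zero] at h9
  refine h9.congr fun Y => ?_
  have e3 := EN_eq (F := F) Y TF
  rw [e3, e1]
  ring

/-- **Averages over the primes of `F` as averages over the primes of `K`.** -/
theorem EN_bc (σ : HeightOneSpectrum (𝓞 K) → GK K) (hσ : ∀ v, IsFrob v (σ v))
    {T : HeightOneSpectrum (𝓞 K) → ℝ} {TF : HeightOneSpectrum (𝓞 F) → ℝ} (hT : Bd T)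
    (hTF : Bd TF) (S : Finset (HeightOneSpectrum (𝓞 F)))
    (h : ∀ w, w ∉ S → ∀ v : HeightOneSpectrum (𝓞 K),
      w.asIdeal.comap (algebraMap (𝓞 K) (𝓞 F)) = v.asIdeal →
      Ideal.absNorm w.asIdeal = Ideal.absNorm v.asIdeal → TF w = T v) :
    Tendsto (fun Y : ℕ => EN F Y TF - EN K Y (fun v => T v * fixn K F (σ v))) atTop (𝓝 0) := by
  classical
  set TF' : HeightOneSpectrum (𝓞 F) → ℝ := fun w => if w ∈ S then
    (if h2 : ∃ v : HeightOneSpectrum (𝓞 K),
      w.asIdeal.comap (algebraMap (𝓞 K) (𝓞 F)) = v.asIdeal then T h2.choose else 0) else TF w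
    with hTF'
  obtain ⟨B, hB⟩ := hT
  obtain ⟨B', hB'⟩ := hTF
  have hbd' : Bd TF' := by
    refine ⟨|B| + |B'|, fun w => ?_⟩
    have h0 := abs_nonneg B
    have h0' := abs_nonneg B'
    rw [hTF']
    simp only
    split_ifs with h1 h2
    · have := (hB h2.choose).trans (le_abs_self B)
      linarith
    · rw [abs_zero]
      positivity
    · have := (hB' w).trans (le_abs_self B')
      linarith
  have h1 := EN_bc0 (F := F) σ hσ (T := T) (TF := TF') ⟨B, hB⟩ hbd' fun p ψ => by
    have e := asIdeal_vx_res (K := K) p ψ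
    rw [hTF']
    simp only
    split_ifs with h1 h2
    · congr 1
      apply HeightOneSpectrum.ext
      rw [e]
      exact h2.choose_spec.symm
    · exact absurd ⟨_, e.symm⟩ h2
    · refine h _ h1 _ e.symm ?_
      have h3 := Pool.Agent.H341R2.nm_kerPrime p ψ
      have h4 := Pool.Agent.W353.NF.nm_vx (⟨p, res K ψ⟩ : HX K)
      exact h3.trans h4.symm
  have h2 : Tendsto (fun Y : ℕ => EN F Y fun w => TF w + -TF' w) atTop (𝓝 0) := by
    refine (mnN F).fin _ (Bd.add ⟨B', hB'⟩ hbd'.neg) (S.finite_toSet.subset fun w hw => ?_)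
    by_contra hcon
    apply hw
    have hcon' : w ∉ S := hcon
    have : TF' w = TF w := by
      rw [hTF']
      simp only
      rw [if_neg hcon']
    rw [this]
    ring
  have h3 := h1.add h2
  rw [add_zero] at h3
  refine h3.congr fun Y => ?_
  unfold EN
  rw [Finset.sum_add_distrib, Finset.sum_neg_distrib]
  ring

end

end Pool.Agent.Y798.PS
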