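import Pool.Agent.Y798.PS.NatB
import Pool.Agent.W353.SP.Spec
import Pool.Agent.TH553.ST.Ext

/-! Families of irreducible Artin representations which contain all constituents of the permutation
representations of several number fields. -/

set_option autoImplicit false

namespace Pool.Agent.Y798.PS

open Complex Filter Topology ComplexConjugate NumberField IsDedekindDomain
  Pool.Agent.W401.Cheb Pool.Agent.W540.BE Pool.Agent.W353.L1 Pool.Agent.W353.AT
  Pool.Agent.W353.SP
open Pool.Agent.W353.NF (act fixn fixn_inv fixn_le vx push_fix)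
open Pool.Agent.W353.TP (HX push qh)
open Pool.Agent.TH553.ST (cnt nof M_cnt kr M_kr M_congr_fin fin_kr qh_one' bd_cnt)
open Pool.Agent.TH553.RS (M qt NH M_of_tendsto)

theorem natMul_re (n : ℕ) (z : ℂ) : ((n : ℂ) * z).re = n * z.re := by
  rw [← Complex.ofReal_natCast, Complex.re_ofReal_mul]

section
variable {K : Type} [Field K] [NumberField K]

/-- the elements of `S` are pairwise inequivalent irreducible Artin representations, and all
irreducible Artin representations with non-zero vectors fixed by `Gal(K̄/F)` are among them -/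
structure Cov (S : Finset (MRep (GK K))) (F : IntermediateField K (AlgebraicClosure K)) : Prop where
  irr : ∀ p ∈ S, Irr p
  ne : ∀ p ∈ S, ∀ q ∈ S, p ≠ q → ¬ Sim p q
  cov : ∀ x, Irr x → (∀ p ∈ S, ¬ Sim x p) → fixedDim x.2 F = 0

theorem list_fam_c {f : MRep (GK K) → ℂ} (hf : ∀ x y, Irr x → Irr y → Sim x y → f x = f y)
    {S : Finset (MRep (GK K))} (hSP : ∀ p ∈ S, Irr p)
    (hS : ∀ p ∈ S, ∀ q ∈ S, p ≠ q → ¬ Sim p q) (L : List (MRep (GK K)))
    (hL : ∀ x ∈ L, Irr x) (hc : ∀ x ∈ L, ∃ p ∈ S, Sim x p) :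
    (L.map f).sum = ∑ p ∈ S, f p * mult L p := by
  have hre : ∀ L' : List (MRep (GK K)), ((L'.map f).sum).re = (L'.map fun x => (f x).re).sum := by
    intro L'
    induction L' with
    | nil => simp
    | cons x L' ih => rw [List.map_cons, List.sum_cons, Complex.add_re, ih, List.map_cons,
        List.sum_cons]
  have him : ∀ L' : List (MRep (GK K)), ((L'.map f).sum).im = (L'.map fun x => (f x).im).sum := by
    intro L'
    induction L' with
    | nil => simp
    | cons x L' ih => rw [List.map_cons, List.sum_cons, Complex.add_im, ih, List.map_cons,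
        List.sum_cons]
  apply Complex.ext
  · rw [hre, list_fam (P := Irr) (fun x y hx hy hs => by rw [hf x y hx hy hs]) hSP hS L hL hc,
      Complex.re_sum]
    refine Finset.sum_congr rfl fun p _ => ?_
    simp
  · rw [him, list_fam (P := Irr) (fun x y hx hy hs => by rw [hf x y hx hy hs]) hSP hS L hL hc,
      Complex.im_sum]
    refine Finset.sum_congr rfl fun p _ => ?_
    simp

variable {S : Finset (MRep (GK K))} {F F' : IntermediateField K (AlgebraicClosure K)}

/-- the permutation character -/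
theorem Cov.fix [NumberField F] (h : Cov S F) (g : GK K) :
    (fixn K F g : ℂ) = ∑ p ∈ S, (fixedDim p.2 F : ℂ) * p.2.character g := by
  obtain ⟨U, L, S', hUn, hU, hF, hL, hfix, hm, -, -, -⟩ := exists_fam F
  have hL' : ∀ x ∈ L, Irr x := fun x hx => (hL x hx).1
  rw [hfix g, list_fam_c (fun x y _ _ hs => by rw [hs.char]) h.irr h.ne L hL' fun x hx => ?_]
  · refine Finset.sum_congr rfl fun p hp => ?_
    rw [hm p (h.irr p hp), mul_comm]
  · by_contra hcon
    push Not at hcon
    have h3 := h.cov x (hL' x hx) hcon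
    rw [← hm x (hL' x hx)] at h3
    exact mult_ne_zero hx h3

/-- a common family for several number fields -/
theorem exists_cov {ι : Type} [Fintype ι] (F : ι → IntermediateField K (AlgebraicClosure K))
    [∀ i, NumberField (F i)] : ∃ S : Finset (MRep (GK K)), ∀ i, Cov S (F i) := by
  classical
  choose U L S' hUn hU hF hL hfix hm hS1 hS2 hS3 using fun i => exists_fam (F i)
  obtain ⟨S, h1, h2, h3⟩ := exists_reps ((Finset.univ : Finset ι).toList.flatMap L)
  refine ⟨S, fun i => ⟨fun p hp => ?_, h2, fun x hx hxS => ?_⟩⟩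
  · obtain ⟨j, _, hj⟩ := List.mem_flatMap.1 (h1 p hp)
    exact (hL j p hj).1
  · by_contra hne
    rw [← hm i x hx] at hne
    obtain ⟨y, hy, hyx⟩ := mult_pos hne
    obtain ⟨p, hp, hyp⟩ := h3 y (List.mem_flatMap.2 ⟨i, Finset.mem_toList.2 (Finset.mem_univ i), hy⟩)
    exact hxS p hp (hyx.symm.trans hyp)

theorem Cov.mono (h : Cov S F) (hle : F' ≤ F) : Cov S F' where
  irr := h.irr
  ne := h.ne
  cov x hx hxS := by
    have h1 := h.cov x hx hxS
    have h2 := fixedDim_mono x.2 hle
    omega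

variable {ι : Type} {l : Filter ι} {E : ι → (HeightOneSpectrum (𝓞 K) → ℝ) → ℝ}
  {σ : HeightOneSpectrum (𝓞 K) → GK K} {T : HeightOneSpectrum (𝓞 K) → ℝ}

theorem RR_re (x : MRep (GK K)) (σ : HeightOneSpectrum (𝓞 K) → GK K) (v) :
    RR x.2 0 σ v = (x.2.character (σ v)⁻¹).re := by
  unfold RR zz
  rw [Complex.ofReal_zero, zero_mul, neg_zero, Complex.cpow_zero, mul_one]

/-- the mean values over `F` in terms of those of the representations -/
theorem Cov.hs [NumberField F] (hM : Mn l E) (h : Cov S F) {zA : MRep (GK K) → ℝ}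
    (hA : ∀ x, IsArtin x.2 → Hs l E (fun v => T v * RR x.2 0 σ v) (zA x)) :
    Hs l E (fun v => T v * fixn K F (σ v)) (∑ p ∈ S, zA p * fixedDim p.2 F) := by
  have h1 := hM.hsSum S fun p hp => hM.hsMul (hA p (h.irr p hp).1) (fixedDim p.2 F : ℝ)
  refine h1.congr (fun v => ?_) (Finset.sum_congr rfl fun p _ => mul_comm _ _)
  have h2 := h.fix (σ v)⁻¹
  rw [fixn_inv] at h2
  have h3 := congrArg Complex.re h2
  rw [Complex.natCast_re, Complex.re_sum] at h3
  rw [h3, Finset.mul_sum]
  refine Finset.sum_congr rfl fun p _ => ?_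
  rw [RR_re, natMul_re]
  ring

/-- the mean value of the product of two permutation characters -/
theorem Cov.gram [NumberField F] [NumberField F'] (hM : Mn l E)
    (hσ : ∀ v, IsFrob v (σ v)) (h : Cov S F) (h' : Cov S F') :
    Hs l E (fun v => (fixn K F (σ v) : ℝ) * fixn K F' (σ v))
      (∑ p ∈ S, (fixedDim p.2 F : ℝ) * fixedDim p.2 F') := by
  classical
  obtain ⟨U, hUn, hU, hρ⟩ := exists_common (κ := S) (n := fun k => k.1.1)
    (fun k => k.1.2) fun k => (h.irr k.1 k.2).1
  have hfin : Finite (GK K ⧸ U) := Subgroup.quotient_finite_of_isOpen U hU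
  have h0 := fun (k k' : S) => hM.ortho U hU (fun k : S => k.1.2) hρ σ hσ (h.irr k.1 k.2).2
    (h.irr k'.1 k'.2).2
  have h1 := hM.hsSum Finset.univ fun (k : S) _ => hM.hsSum Finset.univ fun (k' : S) _ =>
    hM.hsMul (h0 k k') ((fixedDim k.1.2 F : ℝ) * fixedDim k'.1.2 F')
  refine h1.congr (fun v => ?_) ?_
  · have e1 := h.fix (σ v)⁻¹
    have e2 := h'.fix (σ v)⁻¹
    rw [fixn_inv] at e1 e2
    have e3 : ((fixn K F (σ v) : ℝ) * fixn K F' (σ v) : ℝ) =
        ((fixn K F (σ v) : ℂ) * conj (fixn K F' (σ v) : ℂ)).re := by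
      rw [Complex.conj_natCast, natMul_re, Complex.natCast_re]
    rw [e3, e1, e2, map_sum, Finset.sum_mul_sum, Complex.re_sum, ← Finset.sum_coe_sort S]
    refine Finset.sum_congr rfl fun p _ => ?_
    rw [Complex.re_sum, ← Finset.sum_coe_sort S]
    refine Finset.sum_congr rfl fun q _ => ?_
    rw [map_mul, Complex.conj_natCast]
    have e4 : (fixedDim p.1.2 F : ℂ) * p.1.2.character (σ v)⁻¹ *
        ((fixedDim q.1.2 F' : ℂ) * conj (q.1.2.character (σ v)⁻¹)) =
        (((fixedDim p.1.2 F : ℝ) * (fixedDim q.1.2 F' : ℝ) : ℝ) : ℂ) *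
          (p.1.2.character (σ v)⁻¹ * conj (q.1.2.character (σ v)⁻¹)) := by
      push_cast
      ring
    rw [e4, Complex.re_ofReal_mul]
  · rw [← Finset.sum_coe_sort S]
    refine Finset.sum_congr rfl fun p _ => ?_
    rw [Finset.sum_eq_single p]
    · rw [if_pos ⟨Representation.Equiv.refl _⟩, mul_one]
    · intro q _ hqp
      rw [if_neg, mul_zero]
      intro hs
      exact h.ne p.1 p.2 q.1 q.2 (fun e => hqp (Subtype.ext e).symm) hs
    · intro hp
      exact absurd (Finset.mem_univ p) hp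

/-- **The sum of the products of the multiplicities** -/
theorem Cov.nof_eq [NumberField F] [NumberField F'] (h : Cov S F) (h' : Cov S F') :
    (∑ p ∈ S, (fixedDim p.2 F : ℝ) * fixedDim p.2 F') = nof K F F' := by
  classical
  choose σ hσ using exists_isFrob (F := K)
  have h1 := h.gram (mnD K) (σ := σ) hσ h'
  obtain ⟨U, hU⟩ : ∃ U : Ultrafilter ℝ, (U : Filter ℝ) ≤ 𝓝[>] 0 := Ultrafilter.exists_le _
  have hbF : Pool.Agent.TH553.RS.Bd fun v : HeightOneSpectrum (𝓞 K) =>
      (fixn K F (σ v) : ℝ) * fixn K F' (σ v) := h1.1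
  have h2 : M (nm K) U (fun v => (fixn K F (σ v) : ℝ) * fixn K F' (σ v)) =
      ∑ p ∈ S, (fixedDim p.2 F : ℝ) * fixedDim p.2 F' := M_of_tendsto hU h1.2
  have h3 := M_kr hU hbF
  rw [← h2, ← h3, ← M_cnt (K := K) (F := F) (F' := F') hU]
  obtain ⟨R, hR⟩ := push_fix K F
  obtain ⟨R', hR'⟩ := push_fix K F'
  refine M_congr_fin (Pool.Agent.TH553.RS.sysHS K) hU ?_ ?_ ?_
  · obtain ⟨B, hB⟩ := hbF
    exact ⟨B, fun u => hB _⟩
  · exact (bd_cnt (K := K) (F := F)).mul (bd_cnt (K := K) (F := F'))
  · refine (fin_kr (R ∪ R')).subset fun u hu => ?_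
    by_contra hcon
    apply hu
    have hcon' : kr u ∉ R ∪ R' := hcon
    rw [Finset.mem_union, not_or] at hcon'
    have e1 := hR u hcon'.1 (σ (kr u)) (hσ _)
    have e2 := hR' u hcon'.2 (σ (kr u)) (hσ _)
    have q1 : ∀ (F₁ : Type) [Field F₁] [NumberField F₁] [Algebra K F₁],
        cnt K F₁ u = push K (qh (1 : 𝓞 F₁)) u := by
      intro F₁ _ _ _
      unfold cnt
      congr 1
      funext y
      exact (qh_one' y).symm
    change (fixn K F (σ (kr u)) : ℝ) * fixn K F' (σ (kr u)) = cnt K F u * cnt K F' u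
    rw [q1 F, q1 F', e1, e2]

end

end Pool.Agent.Y798.PS
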