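import Pool.Agent.Y798.PS.Cov
import Pool.Agent.TH553.ST.Law

/-! A governing field for the upper limit of the averages of a bounded function. -/

set_option autoImplicit false

namespace Pool.Agent.Y798.PS

open Complex Filter Topology ComplexConjugate NumberField IsDedekindDomain
  Pool.Agent.W401.Cheb Pool.Agent.W540.BE Pool.Agent.W353.L1 Pool.Agent.W353.AT
  Pool.Agent.W353.SP
open Pool.Agent.W353.NF (act fixn fixn_inv fixn_le vx push_fix)
open Pool.Agent.TH553.ST (nof mn)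

/-- bounded complex functions -/
def BC {X : Type*} (φ : X → ℂ) : Prop := ∃ B : ℝ, ∀ v, ‖φ v‖ ≤ B

section
variable {K : Type} [Field K] [NumberField K]

/-- the upper limit of the distance of the averages to `I` -/
noncomputable def df (φ : HeightOneSpectrum (𝓞 K) → ℂ) (I : ℂ) : ℝ :=
  limsup (fun N => ‖mn φ N - I‖) atTop

theorem mn_le {φ : HeightOneSpectrum (𝓞 K) → ℂ} {B : ℝ} (hB : ∀ v, ‖φ v‖ ≤ B) (N : ℕ) :
    ‖mn φ N‖ ≤ |B| := by
  unfold mn
  have h1 : ‖∑ v ∈ upto K N, φ v‖ ≤ (upto K N).card * |B| := by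
    refine (norm_sum_le _ _).trans ?_
    rw [← nsmul_eq_mul]
    exact Finset.sum_le_card_nsmul _ _ _ fun v _ => (hB v).trans (le_abs_self B)
  rw [norm_smul, norm_inv, Real.norm_eq_abs, abs_of_nonneg (Nat.cast_nonneg _)]
  by_cases h0 : (upto K N).card = 0
  · rw [h0]
    simp
  · have h2 : (0 : ℝ) < (upto K N).card := by
      exact_mod_cast Nat.pos_of_ne_zero h0
    rw [inv_mul_le_iff₀ h2]
    exact h1

theorem df_bdd {φ : HeightOneSpectrum (𝓞 K) → ℂ} (hφ : BC φ) (I : ℂ) :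
    ∃ C : ℝ, 0 ≤ C ∧ ∀ N, ‖mn φ N - I‖ ≤ C := by
  obtain ⟨B, hB⟩ := hφ
  refine ⟨|B| + ‖I‖, by positivity, fun N => ?_⟩
  exact (norm_sub_le _ _).trans (add_le_add (mn_le hB N) le_rfl)

theorem df_isBdd {φ : HeightOneSpectrum (𝓞 K) → ℂ} (hφ : BC φ) (I : ℂ) :
    IsBoundedUnder (· ≤ ·) atTop fun N => ‖mn φ N - I‖ := by
  obtain ⟨C, _, hC⟩ := df_bdd hφ I
  exact isBoundedUnder_of ⟨C, hC⟩

theorem df_isCobdd {φ : HeightOneSpectrum (𝓞 K) → ℂ} (I : ℂ) :
    IsCoboundedUnder (· ≤ ·) atTop fun N => ‖mn φ N - I‖ :=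
  (isBoundedUnder_of ⟨0, fun N => norm_nonneg _⟩ :
    IsBoundedUnder (· ≥ ·) atTop fun N => ‖mn φ N - I‖).isCoboundedUnder_le

theorem df_ev {φ : HeightOneSpectrum (𝓞 K) → ℂ} (hφ : BC φ) (I : ℂ) {b : ℝ} (hb : df φ I < b) :
    ∀ᶠ N in atTop, ‖mn φ N - I‖ < b :=
  eventually_lt_of_limsup_lt hb (df_isBdd hφ I)

theorem df_fr {φ : HeightOneSpectrum (𝓞 K) → ℂ} (I : ℂ) {b : ℝ} (hb : b < df φ I) :
    ∃ᶠ N in atTop, b < ‖mn φ N - I‖ :=
  frequently_lt_of_lt_limsup (df_isCobdd I) hb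

theorem df_nonneg {φ : HeightOneSpectrum (𝓞 K) → ℂ} (hφ : BC φ) (I : ℂ) : 0 ≤ df φ I := by
  by_contra hcon
  push Not at hcon
  obtain ⟨N, hN⟩ := (df_ev hφ I hcon).exists
  exact absurd hN (not_lt.2 (norm_nonneg _))

/-- an ultrafilter along which the averages converge to a value of the largest distance -/
theorem exists_ultra {φ : HeightOneSpectrum (𝓞 K) → ℂ} (hφ : BC φ) (I : ℂ) :
    ∃ (U : Ultrafilter ℕ) (z : ℂ), (U : Filter ℕ) ≤ atTop ∧
      Tendsto (fun N => mn φ N - I) U (𝓝 z) ∧ ‖z‖ = df φ I := by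
  have h1 : MapClusterPt (df φ I) atTop fun N => ‖mn φ N - I‖ := by
    rw [mapClusterPt_iff_frequently]
    intro s hs
    obtain ⟨ε, hε, hs⟩ := Metric.mem_nhds_iff.1 hs
    have h2 := df_fr (φ := φ) I (show df φ I - ε < df φ I by linarith)
    have h3 := df_ev hφ I (show df φ I < df φ I + ε by linarith)
    refine (h2.and_eventually h3).mono fun N hN => hs ?_
    rw [Metric.mem_ball, Real.dist_eq, abs_lt]
    constructor <;> linarith [hN.1, hN.2]
  obtain ⟨U, hU, h2⟩ := mapClusterPt_iff_ultrafilter.1 h1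
  obtain ⟨C, hC0, hC⟩ := df_bdd hφ I
  have h3 := (isCompact_closedBall (0 : ℂ) C).ultrafilter_le_nhds
    (U.map fun N => mn φ N - I) (by
      rw [Ultrafilter.coe_map, le_principal_iff, Filter.mem_map]
      refine Filter.Eventually.of_forall fun N => ?_
      change mn φ N - I ∈ Metric.closedBall (0 : ℂ) C
      rw [mem_closedBall_zero_iff]
      exact hC N)
  obtain ⟨z, _, hz⟩ := h3
  have hz' : Tendsto (fun N => mn φ N - I) U (𝓝 z) := hz
  exact ⟨U, z, hU, hz', tendsto_nhds_unique hz'.norm h2⟩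

/-- the mean values along an ultrafilter -/
theorem mn_ultra {ι : Type} {l l' : Filter ι} {E : ι → (HeightOneSpectrum (𝓞 K) → ℝ) → ℝ}
    (h : Mn l E) (hl : l' ≤ l) : Mn l' E where
  add f g hf hg := hl (h.add f g hf hg)
  smul c f i := h.smul c f i
  mono f g hf hg hfg := hl (h.mono f g hf hg hfg)
  one := h.one.mono_left hl
  fin f hf hs := (h.fin f hf hs).mono_left hl
  cheb U _ _ hU ψ hψ c hc σ hσ := (h.cheb U hU ψ hψ c hc σ hσ).mono_left hl

/-- all bounded functions have a mean value -/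
theorem hs_ultra {ι : Type} {U : Ultrafilter ι} {E : ι → (HeightOneSpectrum (𝓞 K) → ℝ) → ℝ}
    (h : Mn (U : Filter ι) E) {f : HeightOneSpectrum (𝓞 K) → ℝ} (hf : Bd f) :
    ∃ m : ℝ, Hs (U : Filter ι) E f m := by
  obtain ⟨B, hB⟩ := hf
  have h1 := (isCompact_Icc (a := -(2 * |B|)) (b := 2 * |B|)).ultrafilter_le_nhds
    (U.map fun i => E i f) (by
      rw [Ultrafilter.coe_map, le_principal_iff, Filter.mem_map]
      filter_upwards [h.bound hB] with i hi
      exact abs_le.1 hi)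
  obtain ⟨m, _, hm⟩ := h1
  exact ⟨m, ⟨B, hB⟩, hm⟩

/-- the real part of the rotated distance -/
noncomputable def TT (φ : HeightOneSpectrum (𝓞 K) → ℂ) (I u : ℂ) (v : HeightOneSpectrum (𝓞 K)) :
    ℝ := (u * (φ v - I)).re

theorem bd_TT {φ : HeightOneSpectrum (𝓞 K) → ℂ} (hφ : BC φ) (I u : ℂ) : Bd (TT φ I u) := by
  obtain ⟨B, hB⟩ := hφ
  refine ⟨‖u‖ * (B + ‖I‖), fun v => (Complex.abs_re_le_norm _).trans ?_⟩
  rw [norm_mul]
  exact mul_le_mul_of_nonneg_left ((norm_sub_le _ _).trans (add_le_add (hB v) le_rfl))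
    (norm_nonneg _)

/-- the ratio of the two normalisations -/
noncomputable def rt (K : Type) [Field K] [NumberField K] (N : ℕ) : ℝ :=
  ((upto K N).card : ℝ) / (Nat.primeCounting N : ℝ)

theorem rt_lim : Tendsto (rt K) atTop (𝓝 1) := by
  refine (mnN K).one.congr fun N => ?_
  unfold EN rt
  rw [Finset.sum_const, nsmul_eq_mul, mul_one]

theorem EN_TT (φ : HeightOneSpectrum (𝓞 K) → ℂ) (I u : ℂ) (N : ℕ) :
    EN K N (TT φ I u) = rt K N * (u * (mn φ N - I)).re := by
  have h1 : ∑ v ∈ upto K N, (u * (φ v - I)) =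
      ((upto K N).card : ℂ) * (u * (mn φ N - I)) := by
    rw [← Finset.mul_sum, Finset.sum_sub_distrib, Finset.sum_const, nsmul_eq_mul]
    unfold mn
    rw [Complex.real_smul]
    by_cases h0 : (upto K N).card = 0
    · rw [Finset.card_eq_zero.1 h0]
      simp
    · have h2 : ((upto K N).card : ℂ) ≠ 0 := by exact_mod_cast h0
      push_cast
      field_simp
  unfold EN TT rt
  rw [← Complex.re_sum, h1, natMul_re]
  ring

end

section
variable {K : Type} [Field K] [NumberField K]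

/-- a finite extension `F` of `K` in `K̄` with a function on its primes which is a base change of `φ` -/
def Lift {K F : Type} [Field K] [NumberField K] [Field F] [NumberField F] [Algebra K F]
    (φ : HeightOneSpectrum (𝓞 K) → ℂ) (ψ : HeightOneSpectrum (𝓞 F) → ℂ) : Prop :=
  ∃ S : Finset (HeightOneSpectrum (𝓞 F)), ∀ w, w ∉ S → ∀ v : HeightOneSpectrum (𝓞 K),
    w.asIdeal.comap (algebraMap (𝓞 K) (𝓞 F)) = v.asIdeal →
    Ideal.absNorm w.asIdeal = Ideal.absNorm v.asIdeal → ψ w = φ v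

theorem fixn_bot (g : GK K) :
    fixn K (⊥ : IntermediateField K (AlgebraicClosure K)) g = 1 := by
  have h : ∀ i j : (⊥ : IntermediateField K (AlgebraicClosure K)) →ₐ[K] AlgebraicClosure K,
      i = j := by
    intro i j
    have : ∀ x : (⊥ : IntermediateField K (AlgebraicClosure K)), i x = j x := by
      intro x
      obtain ⟨y, hy⟩ := IntermediateField.mem_bot.1 x.2
      have hx : x = algebraMap K _ y := Subtype.ext hy.symm
      rw [hx, AlgHom.commutes, AlgHom.commutes]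
    exact AlgHom.ext this
  unfold fixn
  rw [Nat.card_eq_one_iff_unique]
  refine ⟨⟨fun a b => Subtype.ext (h _ _)⟩, ⟨⟨IntermediateField.val _, h _ _⟩⟩⟩

instance : NumberField (⊥ : IntermediateField K (AlgebraicClosure K)) :=
  NumberField.of_module_finite K _

/-- **The governing field.** -/
theorem gov {φ : HeightOneSpectrum (𝓞 K) → ℂ} (hφ : BC φ) (I : ℂ) (C η : ℝ) (hη : 0 < η) :
    ∃ M : IntermediateField K (AlgebraicClosure K), FiniteDimensional K M ∧ IsGalois K M ∧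
      ∀ (ι : Type) [Fintype ι] (F : ι → IntermediateField K (AlgebraicClosure K))
        [∀ i, NumberField (F i)] (ψ : ∀ i, HeightOneSpectrum (𝓞 (F i)) → ℂ) (c : ι → ℝ),
        (∀ i, F i ⊓ M = ⊥) → (∀ i, BC (ψ i)) → (∀ i, Lift φ (ψ i)) → ∑ i, c i = 1 →
        ∑ i, ∑ j, c i * c j * (nof K (F i) (F j) : ℝ) ≤ C →
        df φ I ≤ ∑ i, |c i| * df (ψ i) I + η := by
  classical
  choose σ hσ using exists_isFrob (F := K)
  obtain ⟨U, z, hU, hz, hzn⟩ := exists_ultra hφ I
  -- the rotation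
  obtain ⟨u, hu1, hu2⟩ : ∃ u : ℂ, ‖u‖ ≤ 1 ∧ u * z = (‖z‖ : ℂ) := by
    by_cases h0 : z = 0
    · exact ⟨0, by simp, by simp [h0]⟩
    · have h1 : (‖z‖ : ℂ) ≠ 0 := by
        simpa using h0
      refine ⟨conj z / ‖z‖, ?_, ?_⟩
      · rw [norm_div, Complex.norm_conj, Complex.norm_real, norm_norm, div_self (by simpa using h0)]
      · have h2 : conj z * z = (‖z‖ : ℂ) ^ 2 := by
          rw [mul_comm, Complex.mul_conj, Complex.normSq_eq_norm_sq]
          push_cast
          rfl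
        rw [div_mul_eq_mul_div, h2]
        field_simp
  set T := TT φ I u with hTd
  have hT : Bd T := bd_TT hφ I u
  obtain ⟨s, hs⟩ := hT
  have hT : Bd T := ⟨s, hs⟩
  have hM : Mn (U : Filter ℕ) (EN K) := mn_ultra (mnN K) hU
  have hbd : ∀ V : Subgroup (GK K), IsOpen (V : Set (GK K)) →
      ∀ f : GK K → ℝ, (∀ g, ∀ u ∈ V, f (g * u) = f g) →
      ∃ m : ℝ, Hs (U : Filter ℕ) (EN K) (fun v => T v * f (σ v)) m := by
    intro V hV f hf
    refine hs_ultra hM (hT.mul ?_)
    have hfin : Finite (GK K ⧸ V) := Subgroup.quotient_finite_of_isOpen V hV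
    obtain ⟨B, hB⟩ := (Set.finite_range fun q : GK K ⧸ V => |f q.out|).bddAbove
    refine ⟨B, fun v => ?_⟩
    obtain ⟨u, hu⟩ := QuotientGroup.mk_out_eq_mul V (σ v)
    have h1 := hB ⟨(QuotientGroup.mk (σ v) : GK K ⧸ V), rfl⟩
    simp only [hu] at h1
    rwa [hf (σ v) u u.2] at h1
  obtain ⟨zF, zA, -, hzA, hBess, -, -⟩ := spectral hM hσ ((abs_nonneg _).trans (hs
    (Pool.Agent.H341R2.sysK K).nonempty.some)) hs hbd
  -- the largest value of the sums of squares
  set Q : Set ℝ := {q | ∃ S : Finset (MRep (GK K)), (∀ p ∈ S, Irr p) ∧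
    (∀ p ∈ S, ∀ q ∈ S, p ≠ q → ¬ Sim p q) ∧ ∑ p ∈ S, (zA p) ^ 2 = q} with hQ
  have hQne : Q.Nonempty := ⟨0, ∅, fun p hp => absurd hp (Finset.notMem_empty _),
    fun p hp => absurd hp (Finset.notMem_empty _), Finset.sum_empty⟩
  have hQb : BddAbove Q := by
    refine ⟨s ^ 2, ?_⟩
    rintro q ⟨S, h3, h4, rfl⟩
    exact hBess S h3 h4
  set θ : ℝ := η ^ 2 / (|C| + 1) with hθ
  have hθ0 : 0 < θ := by positivity
  obtain ⟨q₀, ⟨S₀, h3, h4, rfl⟩, hq₀⟩ := exists_lt_of_lt_csSup hQne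
    (show sSup Q - θ < sSup Q by linarith)
  obtain ⟨V, hVn, hV, hρ⟩ := exists_common (κ := S₀) (n := fun k => k.1.1)
    (fun k => k.1.2) fun k => (h3 k.1 k.2).1
  set M : IntermediateField K (AlgebraicClosure K) := IntermediateField.fixedField V with hMd
  have hMV : M.fixingSubgroup = V :=
    InfiniteGalois.fixingSubgroup_fixedField ⟨V, V.isClosed_of_isOpen hV⟩
  have hMf : FiniteDimensional K M ∧ IsGalois K M := by
    rw [← InfiniteGalois.isOpen_and_normal_iff_finite_and_isGalois, hMV]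
    exact ⟨hV, hVn⟩
  refine ⟨M, hMf.1, hMf.2, fun ι _ F _ ψ c hFM hψ hlift hc hform => ?_⟩
  obtain ⟨S, hS⟩ := exists_cov F
  have hne : Nonempty ι := by
    by_contra hcon
    rw [not_nonempty_iff] at hcon
    rw [Finset.univ_eq_empty, Finset.sum_empty] at hc
    exact zero_ne_one hc
  have hSb : Cov S ⊥ := (hS hne.some).mono bot_le
  have hSirr := hSb.irr
  have hSne := hSb.ne
  -- the value over `K`
  have hK : Hs (U : Filter ℕ) (EN K) T (df φ I) := by
    refine ⟨hT, ?_⟩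
    have h5 : Tendsto (fun N => rt K N * (u * (mn φ N - I)).re) U (𝓝 (1 * (u * z).re)) :=
      (rt_lim.mono_left hU).mul
        ((Complex.continuous_re.tendsto _).comp (hz.const_mul u))
    rw [one_mul, hu2, Complex.ofReal_re, hzn] at h5
    refine h5.congr fun N => ?_
    rw [hTd, EN_TT]
  have hK' : df φ I = ∑ p ∈ S, zA p * fixedDim p.2 (⊥ : IntermediateField K _) := by
    refine Hs.unique hK (hSb.hs hM hzA) fun v => ?_
    rw [fixn_bot, Nat.cast_one, mul_one]
  -- the values over the extensions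
  have hFi : ∀ i, |∑ p ∈ S, zA p * fixedDim p.2 (F i)| ≤ df (ψ i) I := by
    intro i
    have h5 := (hS i).hs hM hzA
    obtain ⟨R, hR⟩ := hlift i
    have h6 := EN_bc (F := F i) σ hσ (T := T) (TF := TT (ψ i) I u) hT (bd_TT (hψ i) I u) R
      fun w hw v h1 h2 => by
        rw [hTd]
        unfold TT
        rw [hR w hw v h1 h2]
    have h7 := (h6.mono_left hU).add h5.2
    simp only [sub_add_cancel, zero_add] at h7
    refine le_of_forall_pos_le_add fun ε hε => ?_
    have h8 : Tendsto (fun N => rt (F i) N * (df (ψ i) I + ε / 2)) (U : Filter ℕ)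
        (𝓝 (1 * (df (ψ i) I + ε / 2))) := (rt_lim.mono_left hU).mul_const _
    rw [one_mul] at h8
    have h9 : ∀ᶠ N in (U : Filter ℕ), |EN (F i) N (TT (ψ i) I u)| ≤
        rt (F i) N * (df (ψ i) I + ε / 2) := by
      filter_upwards [hU (df_ev (hψ i) I (show df (ψ i) I < df (ψ i) I + ε / 2 by linarith))]
        with N hN
      have hr : 0 ≤ rt (F i) N := by
        unfold rt
        positivity
      rw [EN_TT, abs_mul, abs_of_nonneg hr]
      refine mul_le_mul_of_nonneg_left ?_ hr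
      refine (Complex.abs_re_le_norm _).trans ?_
      rw [norm_mul]
      refine (mul_le_of_le_one_left (norm_nonneg _) hu1).trans hN.le
    have h10 := le_of_tendsto_of_tendsto h7.abs h8 h9
    linarith
  -- the difference
  set a : MRep (GK K) → ℝ := fun p => ∑ i, c i * fixedDim p.2 (F i) with ha
  set B : Finset (MRep (GK K)) := S.filter fun p => ¬ ∀ u ∈ V, p.2 u = 1 with hBd
  have hdiff : ∑ i, c i * (∑ p ∈ S, zA p * fixedDim p.2 (F i)) - df φ I =
      ∑ p ∈ B, zA p * a p := by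
    have e1 : ∑ i, c i * (∑ p ∈ S, zA p * fixedDim p.2 (F i)) = ∑ p ∈ S, zA p * a p := by
      simp only [ha, Finset.mul_sum]
      rw [Finset.sum_comm]
      refine Finset.sum_congr rfl fun p _ => Finset.sum_congr rfl fun i _ => by ring
    rw [e1, hK', ← Finset.sum_sub_distrib, hBd, Finset.sum_filter]
    refine Finset.sum_congr rfl fun p hp => ?_
    by_cases hpV : ∀ u ∈ V, p.2 u = 1
    · rw [if_neg (not_not.2 hpV)]
      have e2 : ∀ i, fixedDim p.2 (F i) = fixedDim p.2 (⊥ : IntermediateField K _) := fun i => by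
        rw [fixed_inf hV hMV (F i) p hpV, hFM i]
      have e3 : a p = fixedDim p.2 (⊥ : IntermediateField K (AlgebraicClosure K)) := by
        rw [ha]
        simp only [e2]
        rw [← Finset.sum_mul, hc, one_mul]
      rw [e3, sub_self]
    · rw [if_pos hpV]
      have h5 := fixed_zero hMV p (hSirr p hp).2 hpV
      have h6 := fixedDim_mono p.2 (bot_le : (⊥ : IntermediateField K _) ≤ M)
      have h7 : fixedDim p.2 (⊥ : IntermediateField K (AlgebraicClosure K)) = 0 := by omega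
      rw [h7, Nat.cast_zero, mul_zero, sub_zero]
  have hBS : ∀ p ∈ B, p ∈ S := fun p hp => (Finset.mem_filter.1 hp).1
  have hS₀V : ∀ p ∈ S₀, ∀ u ∈ V, p.2 u = 1 := fun p hp u hu => hρ ⟨p, hp⟩ u hu
  have hcross : ∀ p ∈ S₀, ∀ q ∈ B, ¬ Sim p q := fun p hp q hq hs =>
    (Finset.mem_filter.1 hq).2 fun u hu => Sim_one hs (hS₀V p hp u hu)
  have hdisj : Disjoint S₀ B := by
    rw [Finset.disjoint_left]
    intro p hp hpB
    exact hcross p hp p hpB (Sim.refl p)
  have hsum : ∑ p ∈ S₀, (zA p) ^ 2 + ∑ p ∈ B, (zA p) ^ 2 ≤ sSup Q := by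
    rw [← Finset.sum_union hdisj]
    refine le_csSup hQb ⟨S₀ ∪ B, fun p hp => ?_, fun p hp q hq hpq => ?_, rfl⟩
    · rcases Finset.mem_union.1 hp with hp | hp
      · exact h3 p hp
      · exact hSirr p (hBS p hp)
    · rcases Finset.mem_union.1 hp with hp' | hp'
      · rcases Finset.mem_union.1 hq with hq' | hq'
        · exact h4 p hp' q hq' hpq
        · exact hcross p hp' q hq'
      · rcases Finset.mem_union.1 hq with hq' | hq'
        · exact fun hs => hcross q hq' p hp' hs.symm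
        · exact hSne p (hBS p hp') q (hBS q hq') hpq
  have hBθ : ∑ p ∈ B, (zA p) ^ 2 ≤ θ := by linarith
  -- the form
  have hSform : ∑ p ∈ S, (a p) ^ 2 = ∑ i, ∑ j, c i * c j * (nof K (F i) (F j) : ℝ) := by
    have e1 : ∀ i j, (nof K (F i) (F j) : ℝ) =
        ∑ p ∈ S, (fixedDim p.2 (F i) : ℝ) * fixedDim p.2 (F j) := fun i j =>
      ((hS i).nof_eq (hS j)).symm
    simp only [e1, Finset.mul_sum]
    have e2 : ∀ p, (a p) ^ 2 = ∑ i, ∑ j, c i * c j *
        ((fixedDim p.2 (F i) : ℝ) * fixedDim p.2 (F j)) := by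
      intro p
      rw [sq, ha]
      simp only
      rw [Finset.sum_mul_sum]
      exact Finset.sum_congr rfl fun i _ => Finset.sum_congr rfl fun j _ => by ring
    simp only [e2]
    rw [Finset.sum_comm]
    refine Finset.sum_congr rfl fun i _ => ?_
    rw [Finset.sum_comm]
  have hm : ∑ p ∈ B, (a p) ^ 2 ≤ |C| := by
    refine (Finset.sum_le_sum_of_subset_of_nonneg (Finset.filter_subset _ _)
      fun _ _ _ => sq_nonneg _).trans ?_
    rw [hSform]
    exact hform.trans (le_abs_self C)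
  have hsmall : |∑ p ∈ B, zA p * a p| ≤ η := by
    refine abs_le_of_sq_le_sq ?_ hη.le
    have h5 := Finset.sum_mul_sq_le_sq_mul_sq B zA a
    have h6 : (∑ p ∈ B, (zA p) ^ 2) * ∑ p ∈ B, (a p) ^ 2 ≤ θ * |C| :=
      mul_le_mul hBθ hm (Finset.sum_nonneg fun _ _ => sq_nonneg _) hθ0.le
    have h7 : θ * |C| ≤ η ^ 2 := by
      rw [hθ, div_mul_eq_mul_div, div_le_iff₀ (by positivity)]
      have : 0 < η ^ 2 := by positivity
      nlinarith [abs_nonneg C]
    linarith
  have hle : |∑ i, c i * (∑ p ∈ S, zA p * fixedDim p.2 (F i))| ≤ ∑ i, |c i| * df (ψ i) I := by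
    refine (Finset.abs_sum_le_sum_abs _ _).trans (Finset.sum_le_sum fun i _ => ?_)
    rw [abs_mul]
    exact mul_le_mul_of_nonneg_left (hFi i) (abs_nonneg _)
  have h5 := (abs_le.1 hsmall).1
  have h6 := le_abs_self (∑ i, c i * (∑ p ∈ S, zA p * fixedDim p.2 (F i)))
  linarith

end

end Pool.Agent.Y798.PS
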